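import Pool.Agent.Helper7.BM.Goals

/-!
# Project BM, packet EXF: bound for the exponents
-/

set_option autoImplicit false

open Finset Filter Topology

namespace Pool.Agent.Helper1.BM

open Pool.Agent.Helper7.BM

theorem log_small (K : ℝ) (hK : 0 < K) (n : ℕ) : ∃ C0 : ℝ, 0 < C0 ∧ ∀ a : ℕ,
    (a : ℝ) + 1 ≤ K * Real.log ((a : ℝ) + 2) ^ n → (a : ℝ) ≤ C0 := by
  have h1 := (Real.isLittleO_pow_log_id_atTop (n := n)).bound
    (show (0 : ℝ) < 1 / (2 * K) by positivity)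
  obtain ⟨x0, hx0⟩ := (eventually_atTop.1 h1)
  refine ⟨max x0 1, lt_max_of_lt_right one_pos, fun a ha => ?_⟩
  by_contra hcon
  rw [not_le] at hcon
  have hx : x0 ≤ (a : ℝ) + 2 := by
    have := le_max_left x0 1
    linarith
  have h2 := hx0 _ hx
  have ha0 : (0 : ℝ) ≤ a := Nat.cast_nonneg a
  have hlog : 0 ≤ Real.log ((a : ℝ) + 2) := Real.log_nonneg (by linarith)
  rw [Real.norm_eq_abs, abs_of_nonneg (pow_nonneg hlog n), id, Real.norm_eq_abs,
    abs_of_nonneg (by linarith : (0 : ℝ) ≤ (a : ℝ) + 2)] at h2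
  have h3 : K * Real.log ((a : ℝ) + 2) ^ n ≤ ((a : ℝ) + 2) / 2 := by
    calc K * Real.log ((a : ℝ) + 2) ^ n ≤ K * (1 / (2 * K) * ((a : ℝ) + 2)) := by gcongr
      _ = ((a : ℝ) + 2) / 2 := by field_simp
  have h4 := le_max_right x0 1
  linarith

theorem exf : StmtEXF := by
  intro hI hD
  obtain ⟨C0, hC0, hC⟩ := log_small (3 * 8 ^ 115) (by positivity) 115
  let C1 : ℝ := 3 * (2 * 2 ^ 50) ^ 115
  have hC1 : 0 < C1 := by positivity
  refine ⟨C0 + C1, by positivity, ?_⟩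
  intro p q a b hp hq hpq ha hb hs
  have hp2 : 2 ≤ p := hp.two_le
  have hq3 : (3 : ℝ) ≤ q := by
    have : 3 ≤ q := by omega
    exact_mod_cast this
  have hlq : 1 ≤ Real.log q := by
    rw [Real.le_log_iff_exp_le (by linarith)]
    have := Real.exp_one_lt_d9
    linarith
  have hlq115 : 1 ≤ Real.log q ^ 115 := one_le_pow₀ hlq
  have ha0 : (0 : ℝ) ≤ a := Nat.cast_nonneg a
  let X : ℝ := max (2 ^ 50) (max (3 * Real.log q) (4 * Real.log ((a : ℝ) + 2)))
  have hX50 : (2 : ℝ) ^ 50 ≤ X := le_max_left _ _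
  have hX1 : 3 * Real.log q ≤ X := (le_max_left _ _).trans (le_max_right _ _)
  have hX2 : 4 * Real.log ((a : ℝ) + 2) ≤ X := (le_max_right _ _).trans (le_max_right _ _)
  have hX0 : 1 ≤ X := le_trans (by norm_num) hX50
  let M : ℕ := ⌈X⌉₊
  have hMX : X ≤ M := Nat.le_ceil X
  have hMX2 : (M : ℝ) ≤ 2 * X := by
    have := (Nat.ceil_lt_add_one (show 0 ≤ X by linarith)).le
    have h : (M : ℝ) ≤ X + 1 := this
    linarith
  have hM50 : 2 ^ 50 ≤ M := by
    have : ((2 ^ 50 : ℕ) : ℝ) ≤ M := by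
      rw [Nat.cast_pow, Nat.cast_ofNat]
      exact hX50.trans hMX
    exact_mod_cast this
  have hMr50 : (2 : ℝ) ^ 50 ≤ M := hX50.trans hMX
  have hM2 : (2 : ℝ) ≤ M := le_trans (by norm_num) hMr50
  have hM1 : (1 : ℝ) ≤ M := by linarith
  have key : Real.exp (-(M : ℝ) ^ 115) < (M : ℝ) ^ 13 * (2 / (p : ℝ) ^ (a + 1)) := by
    by_cases hc : ∃ c : ℕ, 1 ≤ c ∧ q - 1 = (p - 1) * p ^ c
    · exact hD p q a b M hp hq hpq ha hb hs hc hM50 (hX1.trans hMX) (hX2.trans hMX)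
    · exact hI p q a b M hp hq hpq ha hb hs hc hM50 (hX1.trans hMX) (hX2.trans hMX)
  have hpr : (2 : ℝ) ≤ p := by exact_mod_cast hp2
  have hp0 : (0 : ℝ) < (p : ℝ) ^ (a + 1) := by positivity
  -- `2 ^ (a+1) < exp (2 M ^ 115)`
  have h1 : (2 : ℝ) ^ (a + 1) < Real.exp (2 * (M : ℝ) ^ 115) := by
    have e1 : (p : ℝ) ^ (a + 1) < 2 * (M : ℝ) ^ 13 * Real.exp ((M : ℝ) ^ 115) := by
      rw [Real.exp_neg] at key
      have hexp := Real.exp_pos ((M : ℝ) ^ 115)
      have e2 : (M : ℝ) ^ 13 * (2 / (p : ℝ) ^ (a + 1)) = (2 * (M : ℝ) ^ 13) / (p : ℝ) ^ (a + 1) := by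
        ring
      rw [e2, lt_div_iff₀ hp0, inv_mul_lt_iff₀ hexp] at key
      linarith
    have e3 : (2 : ℝ) ^ (a + 1) ≤ (p : ℝ) ^ (a + 1) := by gcongr
    have e4 : 2 * (M : ℝ) ^ 13 ≤ Real.exp ((M : ℝ) ^ 115) := by
      have e5 : (M : ℝ) ^ 115 + 1 ≤ Real.exp ((M : ℝ) ^ 115) := Real.add_one_le_exp _
      have e6 : 2 * (M : ℝ) ^ 13 ≤ (M : ℝ) * (M : ℝ) ^ 13 := by gcongr
      have e7 : (M : ℝ) * (M : ℝ) ^ 13 ≤ (M : ℝ) ^ 115 := by
        rw [← pow_succ']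
        exact pow_le_pow_right₀ hM1 (by norm_num)
      linarith
    calc (2 : ℝ) ^ (a + 1) ≤ (p : ℝ) ^ (a + 1) := e3
      _ < 2 * (M : ℝ) ^ 13 * Real.exp ((M : ℝ) ^ 115) := e1
      _ ≤ Real.exp ((M : ℝ) ^ 115) * Real.exp ((M : ℝ) ^ 115) := by
        have := Real.exp_pos ((M : ℝ) ^ 115)
        gcongr
      _ = Real.exp (2 * (M : ℝ) ^ 115) := by rw [← Real.exp_add]; ring_nf
  have h2 : ((a : ℝ) + 1) * Real.log 2 < 2 * (M : ℝ) ^ 115 := by
    have e1 := Real.log_lt_log (by positivity) h1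
    rw [Real.log_pow, Real.log_exp] at e1
    push_cast at e1
    exact e1
  have h3 : (a : ℝ) + 1 ≤ 3 * (M : ℝ) ^ 115 := by
    have hl2 := Real.log_two_gt_d9
    have hM115 : (0 : ℝ) < (M : ℝ) ^ 115 := by positivity
    by_contra hcon
    rw [not_le] at hcon
    have e1 : 3 * (M : ℝ) ^ 115 * 0.69 < ((a : ℝ) + 1) * Real.log 2 := by
      have : 3 * (M : ℝ) ^ 115 * 0.69 < ((a : ℝ) + 1) * 0.69 := by
        apply mul_lt_mul_of_pos_right hcon (by norm_num)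
      have e2 : ((a : ℝ) + 1) * 0.69 ≤ ((a : ℝ) + 1) * Real.log 2 := by
        apply mul_le_mul_of_nonneg_left _ (by linarith)
        linarith
      linarith
    have e3 : 2 * (M : ℝ) ^ 115 ≤ 3 * (M : ℝ) ^ 115 * 0.69 := by
      nlinarith
    linarith
  have h4 : (a : ℝ) + 1 ≤ 3 * (2 * X) ^ 115 := by
    refine h3.trans ?_
    gcongr
  rcases le_total (max (2 ^ 50) (3 * Real.log q)) (4 * Real.log ((a : ℝ) + 2)) with hcase | hcase
  · have hXe : X = 4 * Real.log ((a : ℝ) + 2) := by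
      change max (2 ^ 50) (max (3 * Real.log q) (4 * Real.log ((a : ℝ) + 2))) = _
      rw [← max_assoc]
      exact max_eq_right hcase
    have h5 : (a : ℝ) ≤ C0 := by
      apply hC
      refine h4.trans (le_of_eq ?_)
      rw [hXe, show 2 * (4 * Real.log ((a : ℝ) + 2)) = 8 * Real.log ((a : ℝ) + 2) by ring, mul_pow]
      ring
    calc (a : ℝ) ≤ C0 := h5
      _ = C0 * 1 := (mul_one _).symm
      _ ≤ (C0 + C1) * Real.log q ^ 115 := by
        apply mul_le_mul _ hlq115 (by norm_num) (by positivity)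
        linarith
  · have hXe : X = max (2 ^ 50) (3 * Real.log q) := by
      change max (2 ^ 50) (max (3 * Real.log q) (4 * Real.log ((a : ℝ) + 2))) = _
      rw [← max_assoc]
      exact max_eq_left hcase
    have hXle : X ≤ 2 ^ 50 * Real.log q := by
      rw [hXe]
      apply max_le
      · have : (0 : ℝ) < 2 ^ 50 := by positivity
        nlinarith
      · have : (3 : ℝ) ≤ 2 ^ 50 := by norm_num
        nlinarith
    have h5 : (a : ℝ) + 1 ≤ C1 * Real.log q ^ 115 := by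
      refine h4.trans ?_
      calc 3 * (2 * X) ^ 115 ≤ 3 * (2 * (2 ^ 50 * Real.log q)) ^ 115 := by gcongr
        _ = 3 * (2 * 2 ^ 50) ^ 115 * Real.log q ^ 115 := by
          rw [← mul_assoc, mul_pow (2 * 2 ^ 50) (Real.log q) 115, mul_assoc]
    have h6 : 0 ≤ C0 * Real.log q ^ 115 := by positivity
    have h7 : (C0 + C1) * Real.log q ^ 115 = C0 * Real.log q ^ 115 + C1 * Real.log q ^ 115 := by
      ring
    rw [h7]
    linarith

end Pool.Agent.Helper1.BM
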