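import Pool.Agent.Helper7.BM.Goals

/-!
# Project BM, packet NUM: numerical inequalities
-/

set_option autoImplicit false

open Finset

namespace Pool.Agent.Helper1.BM

open Pool.Agent.Helper7.BM

theorem log_bd (m : ℝ) (hm : 2 ^ 50 ≤ m) : 1024 * Real.log m ≤ m := by
  have hm0 : (0 : ℝ) < m := lt_of_lt_of_le (by positivity) hm
  have hr : (2 : ℝ) ^ 25 ≤ Real.sqrt m := by
    rw [Real.le_sqrt (by positivity) hm0.le, ← pow_mul]
    exact hm
  have hr0 : 0 < Real.sqrt m := lt_of_lt_of_le (by positivity) hr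
  have h1 : m = Real.sqrt m * Real.sqrt m := (Real.mul_self_sqrt hm0.le).symm
  have h2 : Real.log m = 2 * Real.log (Real.sqrt m) := by
    conv_lhs => rw [h1]
    rw [Real.log_mul hr0.ne' hr0.ne']
    ring
  have h3 := Real.log_le_sub_one_of_pos hr0
  have h4 : (2048 : ℝ) ≤ Real.sqrt m := le_trans (by norm_num) hr
  have h5 : 2048 * Real.sqrt m ≤ m := by
    conv_rhs => rw [h1]
    exact mul_le_mul_of_nonneg_right h4 hr0.le
  rw [h2]
  linarith

theorem pow_exp (m : ℝ) (hm : 0 < m) (k : ℕ) : m ^ k = Real.exp (k * Real.log m) := by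
  rw [Real.exp_nat_mul, Real.exp_log hm]

theorem exp_neg_two_le : Real.exp (-2) ≤ 1 / 4 := by
  have h1 := Real.add_one_le_exp (1 : ℝ)
  have h2 : Real.exp 2 = Real.exp 1 * Real.exp 1 := by
    rw [← Real.exp_add]
    norm_num
  have h3 : (4 : ℝ) ≤ Real.exp 2 := by
    rw [h2]
    nlinarith
  rw [Real.exp_neg, one_div]
  exact inv_anti₀ (by norm_num) h3

theorem exp8 : (1 : ℝ) / 2 ^ 12 ≤ Real.exp (-8) := by
  have h1 := Real.exp_one_lt_d9
  have h2 : Real.exp 8 = Real.exp 1 ^ 8 := by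
    rw [← Real.exp_nat_mul]
    norm_num
  have h3 : Real.exp 8 ≤ 2 ^ 12 := by
    rw [h2]
    calc Real.exp 1 ^ 8 ≤ (2.7182818286 : ℝ) ^ 8 := by
          have := Real.exp_pos 1
          gcongr
      _ ≤ 2 ^ 12 := by norm_num
  rw [Real.exp_neg, one_div]
  exact inv_anti₀ (Real.exp_pos 8) h3

theorem num : StmtNUM := by
  intro M s T hM hs hT hT2
  have hm : (2 : ℝ) ^ 50 ≤ (M : ℝ) := by exact_mod_cast hM
  have hTr : (2 : ℝ) ^ 13 * (M : ℝ) ^ 16 ≤ T := by exact_mod_cast hT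
  have hT2r : 2 * (T : ℝ) ≤ (M : ℝ) ^ 17 := by exact_mod_cast hT2
  have hn : ((T * M ^ (3 + s) : ℕ) : ℝ) = (T : ℝ) * (M : ℝ) ^ (3 + s) := by push_cast; ring
  obtain ⟨n, hn'⟩ : ∃ n : ℕ, n = T * M ^ (3 + s) := ⟨_, rfl⟩
  rw [← hn'] at hn ⊢
  generalize hmm : (M : ℝ) = m at *
  clear hM hT hT2 hn' hmm
  have hm0 : (0 : ℝ) < m := lt_of_lt_of_le (by positivity) hm
  have hm1 : (1 : ℝ) ≤ m := le_trans (by norm_num) hm
  have hm1000 : (1000 : ℝ) ≤ m := le_trans (by norm_num) hm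
  have hL := log_bd m hm
  have hL0 : 0 ≤ Real.log m := Real.log_nonneg hm1
  set L := Real.log m with hLdef
  have hT0 : (0 : ℝ) ≤ T := Nat.cast_nonneg T
  have pm : ∀ {i j : ℕ}, i ≤ j → m ^ i ≤ m ^ j := fun h => pow_le_pow_right₀ hm1 h
  have pk : ∀ (i : ℕ), 1000 * m ^ i ≤ m ^ (i + 1) := fun i => by
    rw [pow_succ, mul_comm (m ^ i) m]
    exact mul_le_mul_of_nonneg_right hm1000 (by positivity)
  have pp : ∀ i : ℕ, 0 < m ^ i := fun i => by positivity
  have e39 : m ^ 39 = Real.exp (39 * L) := by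
    have := pow_exp m hm0 39
    push_cast at this
    exact this
  have e17 : m ^ 14 * m ^ (3 + s) = m ^ (17 + s) := by rw [← pow_add]; congr 1; omega
  have e18 : m ^ 14 * m ^ (4 + s) = m ^ (18 + s) := by rw [← pow_add]; congr 1; omega
  have h17 : m ^ (17 + s) ≤ m ^ 52 := pm (by omega)
  have h18 : m ^ (18 + s) ≤ m ^ 53 := pm (by omega)
  have h18' : m ^ 18 ≤ m ^ (18 + s) := pm (by omega)
  have hm18 : m ≤ m ^ 18 := by
    calc m = m ^ 1 := (pow_one m).symm
      _ ≤ m ^ 18 := pm (by norm_num)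
  have hL78 : 78 * L ≤ m ^ 18 := by linarith
  have e2 : 2 * m ^ (3 + s) ≤ Real.exp (39 * L) := by
    rw [← e39]
    calc 2 * m ^ (3 + s) ≤ 1000 * m ^ (3 + s) := by
          have := pp (3 + s)
          linarith
      _ ≤ m ^ (3 + s + 1) := pk _
      _ ≤ m ^ 39 := pm (by omega)
  have e2' : 2 * m ^ (4 + s) ≤ Real.exp (40 * L) := by
    have e40 : m ^ 40 = Real.exp (40 * L) := by
      have := pow_exp m hm0 40
      push_cast at this
      exact this
    rw [← e40]
    calc 2 * m ^ (4 + s) ≤ 1000 * m ^ (4 + s) := by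
          have := pp (4 + s)
          linarith
      _ ≤ m ^ (4 + s + 1) := pk _
      _ ≤ m ^ 40 := pm (by omega)
  have e15 : (2 * m ^ 14) ^ T ≤ Real.exp (m ^ 18) := by
    have h1 : 2 * m ^ 14 ≤ Real.exp (15 * L) := by
      have e := pow_exp m hm0 15
      push_cast at e
      rw [← e]
      have h14 : 1000 * m ^ 14 ≤ m ^ 15 := pk 14
      have := pp 14
      linarith
    calc (2 * m ^ 14) ^ T ≤ (Real.exp (15 * L)) ^ T := by
          have := pp 14
          gcongr
      _ = Real.exp (T * (15 * L)) := by rw [← Real.exp_nat_mul]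
      _ ≤ Real.exp (m ^ 18) := by
        apply Real.exp_le_exp.2
        have h2 : (T : ℝ) * (15 * L) ≤ m ^ 17 * m := by
          apply mul_le_mul _ _ (by positivity) (by positivity)
          · linarith
          · linarith
        rw [← pow_succ] at h2
        exact h2
  have m53 : 1000 * m ^ 52 ≤ m ^ 53 := pk 52
  have m1852 : m ^ 18 ≤ m ^ 52 := pm (by norm_num)
  have m115 : 1000 * m ^ 114 ≤ m ^ 115 := pk 114
  have m114 : 1000 * m ^ 111 ≤ m ^ 112 := pk 111
  have m112 : m ^ 112 ≤ m ^ 114 := pm (by norm_num)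
  have m53111 : m ^ 53 ≤ m ^ 111 := pm (by norm_num)
  have m1 : 1 ≤ m ^ 52 := one_le_pow₀ hm1
  -- part (1)
  have P1 : m ^ 39 * Real.exp (5 * m ^ 18) * (2 * m ^ 14) ^ T *
      (Real.exp (m ^ 14 * m ^ (3 + s)) * (2 * m ^ (3 + s) * Real.exp (-m ^ 115))) ≤
      Real.exp (m ^ 53 - m ^ 115) := by
    rw [e17]
    calc m ^ 39 * Real.exp (5 * m ^ 18) * (2 * m ^ 14) ^ T *
          (Real.exp (m ^ (17 + s)) * (2 * m ^ (3 + s) * Real.exp (-m ^ 115)))
        ≤ Real.exp (39 * L) * Real.exp (5 * m ^ 18) * Real.exp (m ^ 18) *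
          (Real.exp (m ^ 52) * (Real.exp (39 * L) * Real.exp (-m ^ 115))) := by
          rw [e39]
          have h1 := Real.exp_pos (-m ^ 115)
          have h2 := pp (3 + s)
          have h3 := pp 14
          gcongr
      _ = Real.exp (39 * L + 5 * m ^ 18 + m ^ 18 + (m ^ 52 + (39 * L + -m ^ 115))) := by
          rw [← Real.exp_add, ← Real.exp_add, ← Real.exp_add, ← Real.exp_add, ← Real.exp_add]
      _ ≤ Real.exp (m ^ 53 - m ^ 115) := by
          apply Real.exp_le_exp.2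
          linarith
  -- part (4)
  have P4 : Real.exp (m ^ 14 * m ^ (4 + s)) *
      (m ^ 39 * Real.exp (5 * m ^ 18) *
        (Real.exp (m ^ 14 * m ^ (4 + s)) * (2 * m ^ (4 + s) * Real.exp (-m ^ 115)))) ≤ 1 / 4 := by
    rw [e18]
    calc Real.exp (m ^ (18 + s)) * (m ^ 39 * Real.exp (5 * m ^ 18) *
          (Real.exp (m ^ (18 + s)) * (2 * m ^ (4 + s) * Real.exp (-m ^ 115))))
        ≤ Real.exp (m ^ 53) * (Real.exp (39 * L) * Real.exp (5 * m ^ 18) *
          (Real.exp (m ^ 53) * (Real.exp (40 * L) * Real.exp (-m ^ 115)))) := by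
          rw [e39]
          have h1 := Real.exp_pos (-m ^ 115)
          have h2 := pp (4 + s)
          gcongr
      _ = Real.exp (m ^ 53 + (39 * L + 5 * m ^ 18 + (m ^ 53 + (40 * L + -m ^ 115)))) := by
          rw [← Real.exp_add, ← Real.exp_add, ← Real.exp_add, ← Real.exp_add, ← Real.exp_add]
      _ ≤ Real.exp (-2) := by
          apply Real.exp_le_exp.2
          have : 40 * L ≤ m ^ 18 := by linarith
          linarith
      _ ≤ 1 / 4 := exp_neg_two_le
  -- part (3)
  have hn0 : (0 : ℝ) ≤ n := Nat.cast_nonneg n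
  have hn55 : (n : ℝ) ≤ m ^ 55 := by
    rw [hn]
    calc (T : ℝ) * m ^ (3 + s) ≤ m ^ 17 * m ^ (3 + s) := by
          have := pp (3 + s)
          have := pp 17
          apply mul_le_mul_of_nonneg_right _ (by positivity)
          linarith
      _ = m ^ (17 + (3 + s)) := by rw [← pow_add]
      _ ≤ m ^ 55 := pm (by omega)
  have P3 : Real.exp (m ^ 14 * m ^ (4 + s)) * (Real.exp (m ^ 53 - m ^ 115) *
      ((n : ℝ) * m ^ (4 + s)) ^ (3 * n ^ 2)) ≤ 1 / 4 := by
    rw [e18]
    have h1 : (n : ℝ) * m ^ (4 + s) ≤ Real.exp (94 * L) := by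
      have e := pow_exp m hm0 94
      push_cast at e
      rw [← e]
      calc (n : ℝ) * m ^ (4 + s) ≤ m ^ 55 * m ^ (4 + s) := by
            have := pp (4 + s)
            gcongr
        _ = m ^ (55 + (4 + s)) := by rw [← pow_add]
        _ ≤ m ^ 94 := pm (by omega)
    have h2 : ((n : ℝ) * m ^ (4 + s)) ^ (3 * n ^ 2) ≤ Real.exp (m ^ 111) := by
      calc ((n : ℝ) * m ^ (4 + s)) ^ (3 * n ^ 2) ≤ (Real.exp (94 * L)) ^ (3 * n ^ 2) := by
            have := pp (4 + s)
            gcongr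
        _ = Real.exp (((3 * n ^ 2 : ℕ) : ℝ) * (94 * L)) := by rw [← Real.exp_nat_mul]
        _ ≤ Real.exp (m ^ 111) := by
          apply Real.exp_le_exp.2
          push_cast
          have h3 : (n : ℝ) ^ 2 ≤ m ^ 110 := by
            calc (n : ℝ) ^ 2 ≤ (m ^ 55) ^ 2 := by gcongr
              _ = m ^ 110 := by rw [← pow_mul]
          calc 3 * (n : ℝ) ^ 2 * (94 * L) = (n : ℝ) ^ 2 * (282 * L) := by ring
            _ ≤ m ^ 110 * m := by
              apply mul_le_mul h3 _ (by positivity) (by positivity)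
              linarith
            _ = m ^ 111 := by rw [← pow_succ]
    calc Real.exp (m ^ (18 + s)) * (Real.exp (m ^ 53 - m ^ 115) *
          ((n : ℝ) * m ^ (4 + s)) ^ (3 * n ^ 2))
        ≤ Real.exp (m ^ 53) * (Real.exp (m ^ 53 - m ^ 115) * Real.exp (m ^ 111)) := by
          gcongr
      _ = Real.exp (m ^ 53 + (m ^ 53 - m ^ 115 + m ^ 111)) := by
          rw [← Real.exp_add, ← Real.exp_add]
      _ ≤ Real.exp (-2) := by
          apply Real.exp_le_exp.2
          linarith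
      _ ≤ 1 / 4 := exp_neg_two_le
  -- part (2)
  have hnlow : 2 ^ 13 * m ^ (19 + s) ≤ (n : ℝ) := by
    rw [hn]
    calc 2 ^ 13 * m ^ (19 + s) = (2 ^ 13 * m ^ 16) * m ^ (3 + s) := by
          rw [mul_assoc, ← pow_add]
          congr 2
          omega
      _ ≤ (T : ℝ) * m ^ (3 + s) := by
          have := pp (3 + s)
          gcongr
  have hnpos : (0 : ℝ) < n := lt_of_lt_of_le (by positivity) hnlow
  have hfac : (0 : ℝ) < (n.factorial : ℝ) := by exact_mod_cast n.factorial_pos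
  have hcore : (2 * m ^ 14) ^ n * ((m ^ (4 + s)) ^ n / (n.factorial : ℝ)) ≤
      Real.exp (-7 * n) := by
    have h1 : (2 * m ^ 14) ^ n * ((m ^ (4 + s)) ^ n / (n.factorial : ℝ)) =
        (2 * m ^ 14 * m ^ (4 + s) / n) ^ n * ((n : ℝ) ^ n / (n.factorial : ℝ)) := by
      rw [div_pow, mul_pow (2 * m ^ 14) (m ^ (4 + s)) n]
      field_simp
    have h2 : (n : ℝ) ^ n / (n.factorial : ℝ) ≤ Real.exp n :=
      Real.pow_div_factorial_le_exp n hn0 n
    have h3 : 2 * m ^ 14 * m ^ (4 + s) / n ≤ Real.exp (-8) := by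
      refine le_trans ?_ exp8
      rw [div_le_iff₀ hnpos]
      calc 2 * m ^ 14 * m ^ (4 + s) = 2 * m ^ (18 + s) := by rw [mul_assoc, e18]
        _ ≤ 2 * m ^ (19 + s) := by
          have : m ^ (18 + s) ≤ m ^ (19 + s) := pm (by omega)
          linarith
        _ = 1 / 2 ^ 12 * (2 ^ 13 * m ^ (19 + s)) := by ring
        _ ≤ 1 / 2 ^ 12 * n := by gcongr
    rw [h1]
    calc (2 * m ^ 14 * m ^ (4 + s) / n) ^ n * ((n : ℝ) ^ n / (n.factorial : ℝ))
        ≤ (Real.exp (-8)) ^ n * Real.exp n := by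
          have := pp 14
          have := pp (4 + s)
          gcongr
      _ = Real.exp (-7 * n) := by
          rw [← Real.exp_nat_mul, ← Real.exp_add]
          ring_nf
  have P2 : Real.exp (m ^ 14 * m ^ (4 + s)) *
      ((m ^ 39 * Real.exp (5 * m ^ 18) * (2 * m ^ 14) ^ n * Real.exp (2 * m ^ 14 * m ^ (4 + s))) *
        (m ^ (4 + s)) ^ n / (n.factorial : ℝ)) ≤ 1 / 4 := by
    have e18' : 2 * m ^ 14 * m ^ (4 + s) = 2 * m ^ (18 + s) := by rw [mul_assoc, e18]
    rw [e18, e18', e39]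
    calc Real.exp (m ^ (18 + s)) *
          ((Real.exp (39 * L) * Real.exp (5 * m ^ 18) * (2 * m ^ 14) ^ n *
            Real.exp (2 * m ^ (18 + s))) * (m ^ (4 + s)) ^ n / (n.factorial : ℝ))
        = Real.exp (m ^ (18 + s)) * (Real.exp (39 * L) * Real.exp (5 * m ^ 18) *
            Real.exp (2 * m ^ (18 + s))) *
            ((2 * m ^ 14) ^ n * ((m ^ (4 + s)) ^ n / (n.factorial : ℝ))) := by ring
      _ ≤ Real.exp (m ^ (18 + s)) * (Real.exp (39 * L) * Real.exp (5 * m ^ 18) *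
            Real.exp (2 * m ^ (18 + s))) * Real.exp (-7 * n) := by gcongr
      _ = Real.exp (m ^ (18 + s) + (39 * L + 5 * m ^ 18 + 2 * m ^ (18 + s)) + -7 * n) := by
          rw [← Real.exp_add, ← Real.exp_add, ← Real.exp_add, ← Real.exp_add]
      _ ≤ Real.exp (-2) := by
          apply Real.exp_le_exp.2
          have h1 : m ^ (18 + s) ≤ m ^ (19 + s) := pm (by omega)
          have h2 : 1 ≤ m ^ (18 + s) := one_le_pow₀ hm1
          have h3 : 39 * L ≤ m ^ 18 := by linarith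
          have h4 : 10 * m ^ (18 + s) ≤ n := by
            have h5 : (10 : ℝ) * m ^ (19 + s) ≤ 2 ^ 13 * m ^ (19 + s) := by
              have := pp (19 + s)
              apply mul_le_mul_of_nonneg_right _ this.le
              norm_num
            linarith
          linarith
      _ ≤ 1 / 4 := exp_neg_two_le
  exact ⟨P1, P2, P3, P4⟩

end Pool.Agent.Helper1.BM
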