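import Pool.Agent.Helper7.BM.Goals2

/-!
# Project BM, packet PDET
-/

set_option autoImplicit false

open Finset

namespace Pool.Agent.Helper1.BM

open Pool.Agent.Helper7.BM

theorem sum_ge (n : ℕ) : ∀ s : Finset ℕ, s.card = n → ∑ i ∈ range n, i ≤ ∑ x ∈ s, x := by
  induction n with
  | zero => intro s _; simp
  | succ n ih =>
    intro s hs
    have hne : s.Nonempty := card_pos.1 (by omega)
    let m := s.max' hne
    have hm : m ∈ s := s.max'_mem hne
    have hsub : s ⊆ range (m + 1) := by
      intro x hx
      exact mem_range.2 (Nat.lt_succ_of_le (s.le_max' x hx))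
    have h1 := card_le_card hsub
    rw [card_range] at h1
    have h2 : (s.erase m).card = n := by
      rw [card_erase_of_mem hm, hs]
      rfl
    have h3 := ih _ h2
    rw [sum_range_succ, ← sum_erase_add s _ hm]
    omega

theorem pdet : StmtPDET := by
  intro J _ _ P z l hl
  choose t ht using hl
  let N : ℕ := univ.sup (fun j => (P j).natDegree) + 1
  have hN : ∀ j, (P j).natDegree < N := fun j =>
    Nat.lt_succ_of_le (le_sup (f := fun j => (P j).natDegree) (mem_univ j))
  rw [← Matrix.det_transpose]
  have h1 : (Matrix.of fun k j => (P j).eval (z k)).transpose =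
      fun j => ∑ n ∈ range N, (fun k => (P j).coeff n * z k ^ n) := by
    funext j k
    rw [Finset.sum_apply, Matrix.transpose_apply, Matrix.of_apply]
    exact Polynomial.eval_eq_sum_range' (hN j) (z k)
  have h2 : Matrix.det (fun j => ∑ n ∈ range N, (fun k => (P j).coeff n * z k ^ n)) =
      ∑ r ∈ Fintype.piFinset (fun _ : J => range N),
        (Matrix.of fun j k => (P j).coeff (r j) * z k ^ r j).det :=
    (Matrix.detRowAlternating (n := J) (R := ℤ)).toMultilinearMap.map_sum_finset
      (fun j n k => (P j).coeff n * z k ^ n) (fun _ => range N)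
  rw [h1, h2]
  refine dvd_sum fun r _ => ?_
  rw [Matrix.det_mul_column (fun j => (P j).coeff (r j)) (fun j k => z k ^ r j)]
  refine Dvd.dvd.mul_left ?_ _
  by_cases hr : Function.Injective r
  · have h3 : (fun j k => z k ^ r j) =
        Matrix.of fun j k => l ^ r j * (fun j k => t k ^ r j : Matrix J J ℤ) j k := by
      funext j k
      rw [Matrix.of_apply, ht k, mul_pow]
    have h5 := Matrix.det_mul_column (fun j => l ^ r j) (fun j k => t k ^ r j)
    rw [h3]
    change _ ∣ Matrix.det (Matrix.of fun i j => l ^ r i * t j ^ r i)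
    rw [h5]
    refine Dvd.dvd.mul_right ?_ _
    rw [prod_pow_eq_pow_sum]
    apply pow_dvd_pow
    have h4 := sum_ge (Fintype.card J) (univ.image r) (by
      rw [card_image_of_injective _ hr, card_univ])
    rw [sum_image (fun a _ b _ h => hr h), sum_range_id] at h4
    exact h4
  · have : ∃ i j, r i = r j ∧ i ≠ j := by
      simpa [Function.Injective] using hr
    obtain ⟨i, j, hij, hne⟩ := this
    have h0 : Matrix.det (fun j k => z k ^ r j) = 0 := by
      apply Matrix.det_zero_of_row_eq hne
      funext k
      rw [hij]
    rw [h0]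
    exact dvd_zero _

end Pool.Agent.Helper1.BM
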